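import Pool.Agent.H.MP_956764_co.Tri

namespace Pool.Agent.Results.MP_956764_co.Values

open Pool.Agent.H.MP_6350a9_co Pool.Agent.H.MP_956764_co

/-- number of padding zeros: the number of leading zeros of `v` if `v` contains a `1`, else `0` -/
def pad (v : List Bool) : ℕ := if true ∈ v then v.idxOf true else 0

/-- the padded binary expansion of `n`, most significant digit first -/
def expansion (v : List Bool) (n : ℕ) : List Bool :=
  List.replicate (pad v) false ++ n.bits.reverse

/-- number of (overlapping) occurrences of `v` as a factor of the padded expansion of `n` -/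
def e (v : List Bool) (n : ℕ) : ℕ :=
  ((Finset.range ((expansion v n).length + 1)).filter
    fun i => v <+: (expansion v n).drop i).card

/-- `A_v(n,d)` -/
noncomputable def A (v : List Bool) (n d : ℕ) : ℕ :=
  sInf {l : ℕ | 1 ≤ l ∧ ¬ e v (n + l * d) ≡ e v n [MOD 2]}

/-- number of trailing zeros of `v` -/
def tz (v : List Bool) : ℕ := v.reverse.idxOf true

def wd (v : List Bool) (k : ℕ) : Bool := v.reverse.getD k false

lemma len_exp (v : List Bool) (n : ℕ) : (expansion v n).length = n.size + pad v := by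
  simp [expansion, Nat.size_eq_bits_len, add_comm]

lemma rev_get (v : List Bool) (n j : ℕ) : (expansion v n).reverse.getD j false = n.testBit j := by
  rw [Nat.testBit_eq_inth, expansion, List.reverse_append, List.reverse_reverse,
    List.reverse_replicate, List.getI_eq_getElem?_getD, List.getD_eq_getElem?_getD,
    List.getElem?_append]
  split_ifs with h
  · rfl
  · rw [List.getElem?_eq_none (not_lt.1 h), List.getElem?_replicate]
    split_ifs <;> rfl

lemma occ (v l : List Bool) (i : ℕ) (hi : i + v.length ≤ l.length) :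
    v <+: l.drop (l.length - v.length - i) ↔
      ∀ k, k < v.length → l.reverse.getD (i + k) false = v.reverse.getD k false := by
  rw [List.prefix_iff_getElem]
  constructor
  · rintro ⟨h1, h2⟩ k hk
    have := h2 (v.length - 1 - k) (by omega)
    rw [List.getElem_drop] at this
    rw [List.getD_eq_getElem _ _ (by simp; omega), List.getD_eq_getElem _ _ (by simpa using hk),
      List.getElem_reverse, List.getElem_reverse, this]
    congr 1
    omega
  · intro h
    refine ⟨by simp; omega, fun k hk => ?_⟩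
    have := h (v.length - 1 - k) (by omega)
    rw [List.getD_eq_getElem _ _ (by simp; omega), List.getD_eq_getElem _ _ (by simp; omega),
      List.getElem_reverse, List.getElem_reverse] at this
    rw [List.getElem_drop]
    refine Eq.trans ?_ (this.symm.trans ?_)
    · congr 1
      omega
    · congr 1
      omega

lemma e_eq (v : List Bool) (n : ℕ) :
    (e v n : ZMod 2) = Φ v.length (wd v) (n.size + pad v + 1 - v.length) n := by
  classical
  unfold Φ e
  rw [Finset.sum_boole, ← len_exp]
  congr 1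
  symm
  refine Finset.card_bij (fun i _ => (expansion v n).length - v.length - i) ?_ ?_ ?_
  · intro i hi
    rw [Finset.mem_filter, Finset.mem_range] at hi ⊢
    refine ⟨by omega, (occ v _ i (by omega)).2 fun k hk => ?_⟩
    rw [rev_get]
    exact hi.2 k hk
  · intro i hi j hj h
    rw [Finset.mem_filter, Finset.mem_range] at hi hj
    omega
  · intro j hj
    rw [Finset.mem_filter, Finset.mem_range] at hj
    have h1 := hj.2.length_le
    rw [List.length_drop] at h1
    have h2 : (expansion v n).length - v.length - ((expansion v n).length - v.length - j) = j := by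
      omega
    refine ⟨(expansion v n).length - v.length - j, ?_, h2⟩
    rw [Finset.mem_filter, Finset.mem_range]
    refine ⟨by omega, fun k hk => ?_⟩
    rw [← rev_get v]
    exact (occ v _ _ (by omega)).1 (by rw [h2]; exact hj.2) k hk

lemma col (v : List Bool) (a b : ℕ) :
    e v a ≡ e v b [MOD 2] ↔ (e v a : ZMod 2) = (e v b : ZMod 2) :=
  (ZMod.natCast_eq_natCast_iff _ _ _).symm

lemma wd_one {v : List Bool} (h : true ∈ v) :
    pad v < v.length ∧ wd v (v.length - 1 - pad v) = true := by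
  have h1 : v.idxOf true < v.length := List.idxOf_lt_length_of_mem h
  simp only [pad, if_pos h]
  refine ⟨h1, ?_⟩
  rw [wd, List.getD_eq_getElem _ _ (by simp; omega), List.getElem_reverse]
  refine Eq.trans ?_ (List.getElem_idxOf h1)
  congr 1
  omega

lemma wd_zero {v : List Bool} (h : true ∉ v) (k : ℕ) (hk : k < v.length) : wd v k = false := by
  rw [wd, List.getD_eq_getElem _ _ (by simpa using hk), List.getElem_reverse]
  by_contra h1
  rw [Bool.not_eq_false] at h1
  exact h (h1 ▸ List.getElem_mem _)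

lemma inv {v : List Bool} (h : true ∈ v) (N M : ℕ) (hM : N.size + pad v + 1 ≤ M) :
    (e v N : ZMod 2) = Φ v.length (wd v) M N := by
  rw [e_eq]
  unfold Φ
  refine Finset.sum_subset (Finset.range_subset_range.2 (by omega)) fun i _ hi => if_neg fun hm => ?_
  obtain ⟨h1, h2⟩ := wd_one h
  have h3 := hm (v.length - 1 - pad v) (by omega)
  rw [h2] at h3
  have h4 := Nat.lt_size.2 (Nat.ge_two_pow_of_testBit h3)
  rw [Finset.mem_range] at hi
  omega

lemma step {v : List Bool} (h : true ∉ v) (hv : v ≠ []) (N : ℕ) (hN : N ≠ 0) :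
    (e v N : ZMod 2) = e v (N / 2) + if N % 2 ^ v.length = 0 then 1 else 0 := by
  have hg := List.length_pos_iff.2 hv
  have hp : pad v = 0 := by simp [pad, h]
  have hs : N.size = (N / 2).size + 1 := by
    apply le_antisymm
    · rw [Nat.size_le, pow_succ]
      have := Nat.lt_size_self (N / 2)
      omega
    · rw [Nat.succ_le_iff, Nat.lt_size]
      rcases Nat.eq_zero_or_pos (N / 2).size with h0 | h0
      · rw [h0]; omega
      · obtain ⟨s, hs⟩ : ∃ s, (N / 2).size = s + 1 := ⟨(N / 2).size - 1, by omega⟩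
        have := Nat.lt_size.1 (show s < (N / 2).size by omega)
        rw [hs, pow_succ]
        omega
  rw [e_eq, e_eq, hp, hs]
  by_cases hc : v.length ≤ (N / 2).size + 1
  · rw [show (N / 2).size + 1 + 0 + 1 - v.length = ((N / 2).size + 0 + 1 - v.length) + 1 by omega]
    unfold Φ
    rw [Finset.sum_range_succ']
    have h1 : ∀ i, Pool.Agent.H.MP_6350a9_co.mt v.length (wd v) N (i + 1) ↔
        Pool.Agent.H.MP_6350a9_co.mt v.length (wd v) (N / 2) i := by
      intro i
      refine forall_congr' fun k => forall_congr' fun _ => ?_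
      rw [show i + 1 + k = (i + k) + 1 by ring, Nat.testBit_succ]
    have h2 : Pool.Agent.H.MP_6350a9_co.mt v.length (wd v) N 0 ↔ N % 2 ^ v.length = 0 := by
      constructor
      · intro hm
        refine Nat.eq_of_testBit_eq fun k => ?_
        rw [Nat.testBit_mod_two_pow, Nat.zero_testBit]
        by_cases hk : k < v.length
        · have := hm k hk
          rw [zero_add, wd_zero h k hk] at this
          simp [this]
        · simp [hk]
      · intro hm k hk
        rw [zero_add, wd_zero h k hk, tb_mod (H' := 0) (by simpa using hm) hk, Nat.zero_testBit]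
    congr 1
    · exact Finset.sum_congr rfl fun i _ => by rw [h1 i]
    · simp only [h2]
  · have h1 : N < 2 ^ v.length := Nat.size_le.1 (by omega)
    rw [Nat.mod_eq_of_lt h1, if_neg hN, show (N / 2).size + 1 + 0 + 1 - v.length = 0 by omega,
      show (N / 2).size + 0 + 1 - v.length = 0 by omega]
    simp [Φ]

lemma hit {v : List Bool} (h : true ∉ v) (hv : v ≠ []) {d : ℕ} (hd : d ≠ 0) :
    ∃ l, l ≤ 2 ^ v.length ∧ l ∈ {l : ℕ | 1 ≤ l ∧ ¬ e v (0 + l * d) ≡ e v 0 [MOD 2]} := by
  obtain ⟨k, hk⟩ : ∃ k, v.length = k + 1 := ⟨v.length - 1, by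
    have := List.length_pos_iff.2 hv
    omega⟩
  have h1 := step h hv (2 ^ v.length * d) (by positivity)
  rw [if_pos (by simp), show 2 ^ v.length * d / 2 = 2 ^ k * d by
    rw [hk, pow_succ', mul_assoc]; omega] at h1
  by_cases h2 : (e v (2 ^ k * d) : ZMod 2) = e v 0
  · refine ⟨2 ^ v.length, le_rfl, Nat.one_le_two_pow, ?_⟩
    rw [col, zero_add, h1, h2]
    simp
  · refine ⟨2 ^ k, Nat.pow_le_pow_right (by norm_num) (by omega), Nat.one_le_two_pow, ?_⟩
    rw [col, zero_add]
    exact h2

def V (v : List Bool) : ℕ := Nat.ofBits fun i : Fin v.length => wd v i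

lemma V_bit (v : List Bool) (j : ℕ) : (V v).testBit j = (decide (j < v.length) && wd v j) := by
  rw [V, Nat.testBit_ofBits]
  split_ifs with h <;> simp [h]

lemma V_zero {v : List Bool} (h : true ∉ v) : V v = 0 := by
  refine Nat.eq_of_testBit_eq fun k => ?_
  rw [V_bit, Nat.zero_testBit]
  by_cases hk : k < v.length
  · simp [wd_zero h k hk]
  · simp [hk]

lemma step' {v : List Bool} (hv : v ≠ []) (N : ℕ) (hN : N ≠ 0) :
    (e v N : ZMod 2) = e v (N / 2) + if N % 2 ^ v.length = V v then 1 else 0 := by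
  by_cases h : true ∈ v
  · have hs : (N / 2).size ≤ N.size := Nat.size_le_size (Nat.div_le_self _ _)
    rw [inv h N (N.size + pad v + 1 + 1) (by omega), inv h (N / 2) (N.size + pad v + 1) (by omega)]
    unfold Φ
    rw [Finset.sum_range_succ']
    have h1 : ∀ i, Pool.Agent.H.MP_6350a9_co.mt v.length (wd v) N (i + 1) ↔
        Pool.Agent.H.MP_6350a9_co.mt v.length (wd v) (N / 2) i := by
      intro i
      refine forall_congr' fun k => forall_congr' fun _ => ?_
      rw [show i + 1 + k = (i + k) + 1 by ring, Nat.testBit_succ]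
    have h2 : Pool.Agent.H.MP_6350a9_co.mt v.length (wd v) N 0 ↔ N % 2 ^ v.length = V v := by
      constructor
      · intro hm
        refine Nat.eq_of_testBit_eq fun k => ?_
        rw [Nat.testBit_mod_two_pow, V_bit]
        by_cases hk : k < v.length
        · have := hm k hk
          rw [zero_add] at this
          rw [this]
        · simp [hk]
      · intro hm k hk
        have := congrArg (fun n => n.testBit k) hm
        simp only [Nat.testBit_mod_two_pow, V_bit, hk, decide_true, Bool.true_and] at this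
        rw [zero_add, this]
    congr 1
    · exact Finset.sum_congr rfl fun i _ => by rw [h1 i]
    · simp only [h2]
  · rw [V_zero h]
    exact step h hv N hN

lemma phi0 {v : List Bool} (h : true ∈ v) (M : ℕ) : Φ v.length (wd v) M 0 = 0 := by
  refine Finset.sum_eq_zero fun i _ => if_neg fun hm => ?_
  obtain ⟨h1, h2⟩ := wd_one h
  have := hm (v.length - 1 - pad v) (by omega)
  simp [h2] at this

lemma e_zero {v : List Bool} (hv : v ≠ []) : (e v 0 : ZMod 2) = 0 := by
  have hg := List.length_pos_iff.2 hv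
  rw [e_eq]
  by_cases h : true ∈ v
  · exact phi0 h _
  · have hp : pad v = 0 := by simp [pad, h]
    rw [hp, Nat.size_zero, show 0 + 0 + 1 - v.length = 0 by omega]
    simp [Φ]

lemma e_one {v : List Bool} (h : true ∈ v) (N : ℕ) : (e v N : ZMod 2) = Ψ v.length (wd v) N := by
  rw [inv h N _ le_rfl, Ψ_eq (M := N.size + pad v + 1) (Nat.size_le.1 (by omega)), ψ, phi0 h,
    add_zero]

lemma rel {v : List Bool} (hv : v ≠ []) : ∃ c : ZMod 2, ∀ N, 0 < N →
    (e v N : ZMod 2) = Ψ v.length (wd v) N + c * (N.size : ℕ) := by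
  have hg := List.length_pos_iff.2 hv
  by_cases h : true ∈ v
  · exact ⟨0, fun N _ => by rw [e_one h, zero_mul, add_zero]⟩
  · refine ⟨1, fun N hN => ?_⟩
    have hp : pad v = 0 := by simp [pad, h]
    have h0 : Φ v.length (wd v) N.size 0 = (N.size : ℕ) := by
      unfold Φ
      have h0 : ∀ i, Pool.Agent.H.MP_6350a9_co.mt v.length (wd v) 0 i :=
        fun i k hk => by simp [wd_zero h k hk]
      simp [h0]
    have hs := Nat.size_pos.2 hN
    have hb : N.testBit (N.size - 1) = true :=
      Nat.testBit_of_two_pow_le_and_two_pow_add_one_gt (Nat.lt_size.1 (by omega))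
        (Nat.size_le.1 (by omega))
    have h1 : Φ v.length (wd v) (N.size + 0 + 1 - v.length) N = Φ v.length (wd v) N.size N := by
      unfold Φ
      refine Finset.sum_subset (Finset.range_subset_range.2 (by omega))
        fun i hi hi' => if_neg fun hm => ?_
      rw [Finset.mem_range] at hi hi'
      have := hm (N.size - 1 - i) (by omega)
      rw [show i + (N.size - 1 - i) = N.size - 1 by omega, hb, wd_zero h _ (by omega)] at this
      exact absurd this (by decide)
    rw [e_eq, hp, h1, Ψ_eq (Nat.lt_size_self N), ψ, h0]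
    linear_combination -two_eq ((N.size : ℕ) : ZMod 2)

lemma bas {v : List Bool} (hv : v ≠ []) :
    ∃ x, Ψ v.length (wd v) (2 ^ v.length * (2 ^ v.length * (2 * x))) = 1 := by
  have hb' : ∃ x, 2 * x < 2 ^ (v.length + 3) ∧ ∀ s M, v.length ≤ s → s + v.length + 4 ≤ M →
      Φ v.length (wd v) M (2 ^ s * (2 * x)) + Φ v.length (wd v) M 0 = 1 := by
    by_cases h : true ∈ v
    · have := wd_one h
      exact base_one ⟨_, by omega, this.2⟩
    · exact base_zero (List.length_pos_iff.2 hv) (wd_zero h)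
  obtain ⟨x, -, base⟩ := hb'
  refine ⟨x, ?_⟩
  rw [Ψ_shift, Ψ_ge (Nat.le_add_right _ (v.length + v.length + 4))]
  exact base _ _ le_rfl (by omega)

lemma fin {v : List Bool} (hv : v ≠ []) {d : ℕ} (hd : d ≠ 0) :
    {l : ℕ | 1 ≤ l ∧ ¬ e v (0 + l * d) ≡ e v 0 [MOD 2]}.Nonempty := by
  by_cases h : true ∈ v
  · obtain ⟨k, m, hm, rfl⟩ := Nat.exists_eq_two_pow_mul_odd hd
    obtain ⟨x, hx⟩ := bas hv
    obtain ⟨Y, -, y2⟩ := tri hx hm
    have hY : Y ≠ 0 := by
      rintro rfl
      rw [mul_zero, mul_zero, Ψ_zero] at y2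
      exact absurd y2 (by decide)
    refine ⟨2 ^ v.length * Y, Nat.one_le_iff_ne_zero.2 (by positivity), ?_⟩
    rw [col, e_zero hv, e_one h, show 0 + 2 ^ v.length * Y * (2 ^ k * m) =
      2 ^ k * (2 ^ v.length * (m * Y)) by ring, Ψ_shift, y2]
    decide
  · obtain ⟨l, -, h⟩ := hit h hv hd
    exact ⟨l, h⟩

lemma char {v : List Bool} (hv : v ≠ []) (l : ℕ) : (∃ d, 1 ≤ d ∧ A v 0 d = l) ↔
    1 ≤ l ∧ ∃ ρ, (∀ j, Even j → 1 ≤ j → j < l → j * ρ % 2 ^ v.length ≠ V v) ∧
      (Even l → l * ρ % 2 ^ v.length = V v) := by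
  have half : ∀ j d, Even j → j * d / 2 = j / 2 * d := by
    rintro _ d ⟨k, rfl⟩
    rw [← two_mul, mul_assoc, Nat.mul_div_cancel_left _ two_pos, Nat.mul_div_cancel_left _ two_pos]
  constructor
  · rintro ⟨d, hd, hl⟩
    have h1 := Nat.sInf_mem (fin hv (d := d) (by omega))
    change 1 ≤ A v 0 d ∧ ¬ e v (0 + A v 0 d * d) ≡ e v 0 [MOD 2] at h1
    rw [hl, col, e_zero hv, zero_add] at h1
    have h2 : ∀ j, 1 ≤ j → j < l → (e v (j * d) : ZMod 2) = 0 := by
      intro j j1 j2
      have := Nat.notMem_of_lt_sInf (s := {l : ℕ | 1 ≤ l ∧ ¬ e v (0 + l * d) ≡ e v 0 [MOD 2]})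
        (hl ▸ j2 : j < A v 0 d)
      by_contra hc
      exact this ⟨j1, by rw [col, e_zero hv, zero_add]; exact hc⟩
    refine ⟨h1.1, d, fun j je j1 j2 hc => ?_, fun le => ?_⟩
    · have := step' hv (j * d) (Nat.mul_ne_zero (by omega) (by omega))
      obtain ⟨k, hk⟩ := id je
      rw [if_pos hc, half j d je, h2 j j1 j2, h2 (j / 2) (by omega) (by omega)] at this
      exact absurd this (by decide)
    · have := step' hv (l * d) (Nat.mul_ne_zero (by omega) (by omega))
      obtain ⟨k, hk⟩ := id le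
      by_contra hc
      rw [if_neg hc, half l d le, h2 (l / 2) (by omega) (by omega), add_zero] at this
      exact h1.2 this
  · rintro ⟨hl, ρ, r1, r2⟩
    obtain ⟨c, hc⟩ := rel hv
    obtain ⟨x, hx⟩ := bas hv
    obtain ⟨d, hd, hρ, h⟩ := free' hx c (fun j => if j = l then 1 else 0) (l + 1) ρ
    have h2 : ∀ j, 1 ≤ j → j ≤ l → (e v (j * d) : ZMod 2) = if j = l then 1 else 0 := by
      intro j
      induction j using Nat.strong_induction_on with
      | _ j ih =>
        intro j1 j2
        rcases Nat.even_or_odd j with je | jo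
        · obtain ⟨k, hk⟩ := id je
          rw [step' hv (j * d) (Nat.mul_ne_zero (by omega) (by omega)), half j d je,
            ih (j / 2) (by omega) (by omega) (by omega), if_neg (by omega), zero_add,
            show j * d % 2 ^ v.length = j * ρ % 2 ^ v.length from hρ.mul_left j]
          by_cases hj : j = l
          · rw [if_pos hj, if_pos (hj ▸ r2 (hj ▸ je))]
          · rw [if_neg hj, if_neg (r1 j je j1 (by omega))]
        · rw [hc _ (Nat.mul_pos (by omega) hd)]
          exact h j (by omega) jo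
    refine ⟨d, hd, le_antisymm (Nat.sInf_le ⟨hl, ?_⟩) ?_⟩
    · rw [col, e_zero hv, zero_add, h2 l hl le_rfl, if_pos rfl]
      decide
    · have h1 := Nat.sInf_mem (fin hv (d := d) (by omega))
      change 1 ≤ A v 0 d ∧ ¬ e v (0 + A v 0 d * d) ≡ e v 0 [MOD 2] at h1
      by_contra hlt
      rw [col, e_zero hv, zero_add, h2 _ h1.1 (by omega), if_neg (by omega)] at h1
      exact h1.2 rfl

lemma V_one {v : List Bool} (h : true ∈ v) :
    tz v < v.length ∧ ∃ W, Odd W ∧ V v = 2 ^ tz v * W := by
  have h0 : true ∈ v.reverse := List.mem_reverse.2 h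
  have h1 : v.reverse.idxOf true < v.reverse.length := List.idxOf_lt_length_of_mem h0
  have h2 : tz v < v.length := by simpa [tz] using h1
  have h3 : wd v (tz v) = true := by
    rw [wd, tz, List.getD_eq_getElem _ _ h1]
    exact List.getElem_idxOf h1
  have h4 : ∀ k, k < tz v → wd v k = false := by
    intro k hk
    rw [wd, List.getD_eq_getElem _ _ (hk.trans h1)]
    have := List.not_of_lt_findIdx (p := fun x => x == true) (xs := v.reverse) (i := k) hk
    simpa using this
  refine ⟨h2, V v / 2 ^ tz v, ?_, ?_⟩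
  · have := V_bit v (tz v)
    rw [h3, Nat.testBit_eq_decide_div_mod_eq] at this
    rw [Nat.odd_iff]
    simpa [h2] using this
  · have h5 : V v % 2 ^ tz v = 0 := by
      refine Nat.eq_of_testBit_eq fun k => ?_
      rw [Nat.testBit_mod_two_pow, V_bit, Nat.zero_testBit]
      by_cases hk : k < tz v
      · simp [h4 k hk]
      · simp [hk]
    have := Nat.mod_add_div (V v) (2 ^ tz v)
    omega

lemma cop {m : ℕ} (hm : Odd m) (k : ℕ) : Nat.Coprime (2 ^ k) m :=
  Nat.Coprime.pow_left _ ((Nat.coprime_two_left).2 hm)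

lemma arith1 {a c W l : ℕ} (hW : Odd W) (hlt : 2 ^ a * W < 2 ^ (a + (c + 1))) :
    (1 ≤ l ∧ ∃ ρ, (∀ j, Even j → 1 ≤ j → j < l → j * ρ % 2 ^ (a + (c + 1)) ≠ 2 ^ a * W) ∧
      (Even l → l * ρ % 2 ^ (a + (c + 1)) = 2 ^ a * W)) ↔
    (Odd l ∨ ∃ b m, 1 ≤ b ∧ b ≤ a ∧ Odd m ∧ m < 2 ^ (c + 1) ∧ l = 2 ^ b * m) := by
  constructor
  · rintro ⟨hl, ρ, r1, r2⟩
    rcases Nat.even_or_odd l with le | lo
    · right
      obtain ⟨b, m, hm, rfl⟩ := Nat.exists_eq_two_pow_mul_odd (show l ≠ 0 by omega)
      have hb : 1 ≤ b := by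
        by_contra hc
        obtain rfl : b = 0 := by omega
        rw [pow_zero, one_mul] at le
        exact (Nat.not_even_iff_odd.2 hm) le
      have r3 := r2 le
      have hba : b ≤ a := by
        by_contra hc
        have d1 : 2 ^ (a + 1) ∣ 2 ^ b * m * ρ % 2 ^ (a + (c + 1)) :=
          (Nat.dvd_mod_iff (pow_dvd_pow 2 (by omega))).2
            (((pow_dvd_pow 2 (by omega)).mul_right _).mul_right _)
        rw [r3, pow_succ] at d1
        have := Nat.dvd_of_mul_dvd_mul_left (by positivity) d1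
        rw [Nat.odd_iff] at hW
        omega
      refine ⟨b, m, hb, hba, hm, ?_, rfl⟩
      by_contra hc
      obtain ⟨m', rfl⟩ : ∃ m', m = m' + 2 ^ (c + 1) := ⟨m - 2 ^ (c + 1), by omega⟩
      have hm' : m' ≠ 0 := by
        rintro rfl
        rw [zero_add, Nat.odd_iff, pow_succ] at hm
        omega
      obtain ⟨a', rfl⟩ : ∃ a', a = b + a' := ⟨a - b, by omega⟩
      have d1 : 2 ^ (b + a') ∣ 2 ^ b * (m' + 2 ^ (c + 1)) * ρ :=
        (Nat.dvd_mod_iff (pow_dvd_pow 2 (Nat.le_add_right _ (c + 1)))).1 (r3 ▸ Dvd.intro _ rfl)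
      rw [pow_add, mul_assoc] at d1
      obtain ⟨t, rfl⟩ := (cop hm a').dvd_of_dvd_mul_left
        (Nat.dvd_of_mul_dvd_mul_left (by positivity) d1)
      refine r1 (2 ^ b * m') ((Nat.even_pow.2 ⟨even_two, by omega⟩).mul_right _)
        (Nat.one_le_iff_ne_zero.2 (by positivity))
        (Nat.mul_lt_mul_of_pos_left (by have : 0 < 2 ^ (c + 1) := by positivity
                                        omega) (by positivity)) ?_
      rw [← r3, show 2 ^ b * (m' + 2 ^ (c + 1)) * (2 ^ a' * t) =
        2 ^ b * m' * (2 ^ a' * t) + 2 ^ (b + a' + (c + 1)) * t by ring, Nat.add_mul_mod_self_left]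
    · exact Or.inl lo
  · rintro (lo | ⟨b, m, hb, hba, hm, hlt', rfl⟩)
    · refine ⟨lo.pos, 0, fun j _ _ _ => ?_, fun le => absurd le (Nat.not_even_iff_odd.2 lo)⟩
      have := hW.pos
      simp only [mul_zero, Nat.zero_mod]
      positivity
    · obtain ⟨a', rfl⟩ : ∃ a', a = b + a' := ⟨a - b, by omega⟩
      obtain ⟨Y, hY⟩ := solve hm (c + 1) 0 W
      rw [add_zero] at hY
      have hYo : Odd Y := by
        have h1 : m * Y ≡ W [MOD 2] := hY.of_dvd (Dvd.intro_left _ (pow_succ 2 c).symm)
        have h2 : Odd (m * Y) := by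
          rw [Nat.odd_iff] at hW ⊢
          exact Eq.trans h1 hW
        exact (Nat.odd_mul.1 h2).2
      have hl : 2 ^ b * m * (2 ^ a' * Y) % 2 ^ (b + a' + (c + 1)) = 2 ^ (b + a') * W := by
        rw [← Nat.mod_eq_of_lt hlt, show 2 ^ b * m * (2 ^ a' * Y) = 2 ^ (b + a') * (m * Y) by ring,
          pow_add 2 (b + a')]
        exact hY.mul_left' _
      have := hm.pos
      refine ⟨Nat.one_le_iff_ne_zero.2 (by positivity), 2 ^ a' * Y, fun j _ _ hj hc => ?_,
        fun _ => hl⟩
      have d1 : 2 ^ (b + a' + (c + 1)) ∣ 2 ^ b * m * (2 ^ a' * Y) - j * (2 ^ a' * Y) :=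
        (Nat.modEq_iff_dvd' (Nat.mul_le_mul_right _ hj.le)).1 (hc.trans hl.symm)
      rw [← Nat.sub_mul, show 2 ^ (b + a' + (c + 1)) = 2 ^ a' * 2 ^ (b + (c + 1)) by ring,
        mul_left_comm] at d1
      have d2 := (cop hYo _).dvd_of_dvd_mul_right (Nat.dvd_of_mul_dvd_mul_left (by positivity) d1)
      have d3 := Nat.le_of_dvd (by omega) d2
      have d4 : 2 ^ b * m < 2 ^ (b + (c + 1)) := by
        rw [pow_add 2 b]; exact Nat.mul_lt_mul_of_pos_left hlt' (by positivity)
      omega

lemma arith0 {g l : ℕ} (hg : 0 < g) :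
    (1 ≤ l ∧ ∃ ρ, (∀ j, Even j → 1 ≤ j → j < l → j * ρ % 2 ^ g ≠ 0) ∧
      (Even l → l * ρ % 2 ^ g = 0)) ↔
    ((Odd l ∧ l < 2 ^ g) ∨ ∃ b, 1 ≤ b ∧ b ≤ g ∧ l = 2 ^ b) := by
  have he : Even (2 ^ g) := Nat.even_pow.2 ⟨even_two, by omega⟩
  constructor
  · rintro ⟨hl, ρ, r1, r2⟩
    have h1 : l ≤ 2 ^ g := by
      by_contra hc
      exact r1 _ he Nat.one_le_two_pow (by omega) (by simp)
    rcases Nat.even_or_odd l with le | lo
    · right
      obtain ⟨b, m, hm, rfl⟩ := Nat.exists_eq_two_pow_mul_odd (show l ≠ 0 by omega)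
      have hb : 1 ≤ b := by
        by_contra hc
        obtain rfl : b = 0 := by omega
        rw [pow_zero, one_mul] at le
        exact (Nat.not_even_iff_odd.2 hm) le
      have d1 : 2 ^ g ∣ 2 ^ b * m * ρ := Nat.dvd_of_mod_eq_zero (r2 le)
      rw [mul_right_comm] at d1
      have d2 := (cop hm g).dvd_of_dvd_mul_right d1
      have hm1 : m = 1 := by
        by_contra hc
        have := hm.pos
        exact r1 (2 ^ b) (Nat.even_pow.2 ⟨even_two, by omega⟩) Nat.one_le_two_pow
          ((Nat.lt_mul_iff_one_lt_right (by positivity)).2 (by omega)) (Nat.mod_eq_zero_of_dvd d2)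
      subst hm1
      rw [mul_one] at h1 ⊢
      exact ⟨b, hb, (Nat.pow_le_pow_iff_right (by norm_num)).1 h1, rfl⟩
    · refine Or.inl ⟨lo, lt_of_le_of_ne h1 ?_⟩
      rintro rfl
      exact (Nat.not_even_iff_odd.2 lo) he
  · rintro (⟨lo, hl⟩ | ⟨b, hb, hbg, rfl⟩)
    · refine ⟨lo.pos, 1, fun j _ _ _ => ?_, fun le => absurd le (Nat.not_even_iff_odd.2 lo)⟩
      rw [mul_one, Nat.mod_eq_of_lt (by omega)]
      omega
    · obtain ⟨c, rfl⟩ : ∃ c, g = b + c := ⟨g - b, by omega⟩
      refine ⟨Nat.one_le_two_pow, 2 ^ c, fun j _ j1 j2 => ?_, fun _ => by rw [← pow_add]; simp⟩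
      rw [Nat.mod_eq_of_lt (by
        rw [pow_add]; exact Nat.mul_lt_mul_of_pos_right j2 (by positivity))]
      exact Nat.mul_ne_zero (by omega) (by positivity)

theorem result (v : List Bool) (hv : v ≠ []) :
    (true ∈ v → {l : ℕ | ∃ d, 1 ≤ d ∧ A v 0 d = l} =
      {l : ℕ | Odd l ∨ ∃ b m, 1 ≤ b ∧ b ≤ tz v ∧ Odd m ∧ m < 2 ^ (v.length - tz v) ∧
        l = 2 ^ b * m}) ∧
    (true ∉ v → {l : ℕ | ∃ d, 1 ≤ d ∧ A v 0 d = l} =
      {l : ℕ | (Odd l ∧ l < 2 ^ v.length) ∨ ∃ b, 1 ≤ b ∧ b ≤ v.length ∧ l = 2 ^ b}) := by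
  refine ⟨fun h => ?_, fun h => ?_⟩
  · ext l
    obtain ⟨h1, W, hW, h2⟩ := V_one h
    have h3 : V v < 2 ^ v.length := Nat.ofBits_lt_two_pow _
    obtain ⟨c, hc⟩ : ∃ c, v.length = tz v + (c + 1) := ⟨v.length - tz v - 1, by omega⟩
    simp only [Set.mem_ofPred_eq]
    rw [char hv, h2, show v.length - tz v = c + 1 by omega]
    rw [h2] at h3
    generalize tz v = a at *
    rw [hc] at h3 ⊢
    exact arith1 hW h3
  · ext l
    simp only [Set.mem_ofPred_eq]
    rw [char hv, V_zero h]
    exact arith0 (List.length_pos_iff.2 hv)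

end Pool.Agent.Results.MP_956764_co.Values
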